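import Pool.Agent.helper56.NZ.Spec
import Pool.Agent.helper49.EX.INV

/-!
# Project nz, part MON: the coordinates increase with `k`
-/

set_option autoImplicit false

open Complex Metric Set Filter Topology MeasureTheory
open Pool.Agent.helper98.ILF Pool.Agent.helper16.Multibrot
open HY (UD T S hd UN RM VV SG Orb fz)

noncomputable section

namespace NZ

theorem MON (hVKB : HY.VKB_stmt) (hKO0 : V3.KO0_stmt) : MON_stmt := by
  intro n c hn hc k k' φ φ' hkk h h'
  obtain ⟨-, -, -, -, -, -, -, hstep, -⟩ := hVKB n c hn hc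
  have hsub : VV n c k' ⊆ VV n c k := by
    have hanti : Antitone (fun j => VV n c j) := antitone_nat_of_succ_le hstep
    exact hanti hkk
  have hopen : IsOpen UD := isOpen_ball
  have h0UD : (0 : ℂ) ∈ UD := by simp [UD]
  obtain ⟨θ, hθd, hθm, hθe⟩ := EX.INV hKO0 φ φ' UD UD hopen hopen h.dif h.inj h'.dif
    (by rw [h'.img, h.img]; exact hsub)
  have hθ0 : θ 0 = 0 := by
    apply h.inj (hθm h0UD) h0UD
    rw [hθe 0 h0UD, h.val, h'.val]
  have hmaps : MapsTo θ (ball 0 1) (closedBall 0 1) := fun z hz => ball_subset_closedBall (hθm hz)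
  have hdθ : ‖deriv θ 0‖ ≤ 1 := by
    apply Complex.norm_deriv_le_one_of_mapsTo_ball (R := 1) hθd _ one_pos
    rw [hθ0]; exact hmaps
  constructor
  · have hev : φ' =ᶠ[𝓝 0] fun z => φ (θ z) := by
      filter_upwards [hopen.mem_nhds h0UD] with z hz
      exact (hθe z hz).symm
    have hφ : HasDerivAt φ (deriv φ 0) (θ 0) := by
      rw [hθ0]
      exact ((h.dif 0 h0UD).differentiableAt (hopen.mem_nhds h0UD)).hasDerivAt
    have hθ : HasDerivAt θ (deriv θ 0) 0 :=
      ((hθd 0 h0UD).differentiableAt (hopen.mem_nhds h0UD)).hasDerivAt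
    have hc := (hφ.comp 0 hθ).congr_of_eventuallyEq hev
    rw [hc.deriv, norm_mul]
    calc ‖deriv φ 0‖ * ‖deriv θ 0‖ ≤ ‖deriv φ 0‖ * 1 :=
          mul_le_mul_of_nonneg_left hdθ (norm_nonneg _)
      _ = ‖deriv φ 0‖ := mul_one _
  · intro x hx x' hx' he
    have hx'e : θ x' = x := by
      apply h.inj (hθm hx') hx
      rw [hθe x' hx', he]
    rw [← hx'e]
    apply Complex.norm_le_norm_of_mapsTo_ball (R := 1) hθd hmaps hθ0
    simpa [UD] using hx'

end NZ
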